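import Pool.Agent.Y920.JB.Stm

set_option autoImplicit false

/-! Convergence of the sums (helper475, for helper920). -/

open Topology Filter MeasureTheory Finset

namespace Pool.Agent.Y475.JB

open Pool.Agent.Y920.JB

theorem t_CONV : S_CONV := by
  intro G _ _ _ _ a f T hT h0 hstep hd
  have hr : (1 / 2 : ℝ) < 1 := by norm_num
  have hu : ∀ (w : ∀ n, Fin (a n + 1)) (n : ℕ),
      dist (∑ i ∈ range (n + 1), f i (w i)) (∑ i ∈ range (n + 1 + 1), f i (w i)) ≤
        1 * (1 / 2 : ℝ) ^ n := fun w n => by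
    rw [one_mul]
    exact hd w n
  have hc : ∀ w : (∀ n, Fin (a n + 1)), ∃ x : G,
      Tendsto (fun n => ∑ i ∈ range (n + 1), f i (w i)) atTop (𝓝 x) := fun w =>
    cauchySeq_tendsto_of_complete (cauchySeq_of_le_geometric (1 / 2) 1 hr (hu w))
  choose Φ hΦ using hc
  have hdist : ∀ (w : ∀ n, Fin (a n + 1)) (n : ℕ),
      dist (∑ i ∈ range (n + 1), f i (w i)) (Φ w) ≤ 1 * (1 / 2 : ℝ) ^ n / (1 - 1 / 2) :=
    fun w n => dist_le_of_le_geometric_of_tendsto (1 / 2) 1 hr (hu w) (hΦ w) n
  refine ⟨Φ, ?_, fun w n => ?_⟩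
  · have hunif : TendstoUniformly (fun (n : ℕ) (w : ∀ n, Fin (a n + 1)) =>
        ∑ i ∈ range (n + 1), f i (w i)) Φ atTop := by
      rw [Metric.tendstoUniformly_iff]
      intro ε hε
      have h1 : Tendsto (fun n : ℕ => 1 * (1 / 2 : ℝ) ^ n / (1 - 1 / 2)) atTop (𝓝 0) := by
        have h2 := (tendsto_pow_atTop_nhds_zero_of_lt_one (by norm_num : (0 : ℝ) ≤ 1 / 2) hr)
        have h3 := (h2.const_mul 1).div_const (1 - 1 / 2 : ℝ)
        simpa using h3
      filter_upwards [h1.eventually (gt_mem_nhds hε)] with n hn w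
      rw [dist_comm]
      exact (hdist w n).trans_lt hn
    refine hunif.continuous (Frequently.of_forall fun n => ?_)
    exact continuous_finsetSum _ fun i _ =>
      (continuous_of_discreteTopology (f := f i)).comp (continuous_apply i)
  · have key : ∀ (k n : ℕ), ∃ v ∈ T n, ∑ i ∈ range (n + k + 1), f i (w i) =
        (∑ i ∈ range (n + 1), f i (w i)) + v := by
      intro k
      induction k with
      | zero => exact fun n => ⟨0, h0 n, by simp⟩
      | succ k ih =>
        intro n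
        obtain ⟨v, hv, h1⟩ := ih (n + 1)
        refine ⟨f (n + 1) (w (n + 1)) + v, hstep n _ v hv, ?_⟩
        have h2 : n + (k + 1) + 1 = n + 1 + k + 1 := by omega
        rw [h2, h1, sum_range_succ _ (n + 1)]
        abel
    refine ⟨Φ w - ∑ i ∈ range (n + 1), f i (w i), ?_, by abel⟩
    have hlim : Tendsto (fun k : ℕ => ∑ i ∈ range (k + 1), f i (w i) -
        ∑ i ∈ range (n + 1), f i (w i)) atTop (𝓝 (Φ w - ∑ i ∈ range (n + 1), f i (w i))) :=
      (hΦ w).sub_const _
    refine (hT n).mem_of_tendsto hlim ?_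
    filter_upwards [eventually_ge_atTop n] with m hm
    obtain ⟨k, rfl⟩ := Nat.exists_eq_add_of_le hm
    obtain ⟨v, hv, h1⟩ := key k n
    rw [h1]
    simpa using hv

end Pool.Agent.Y475.JB
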